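import Pool.Agent.W434.BW.StmB

/-!
Project BW (helper434): the new domains (S_afa).
-/

set_option autoImplicit false

namespace Pool.Agent.W721.BWAFA

open Pool.Agent.W434.BW

lemma rl_rel {Ω : Type} {ar : Ω → ℕ} {V St A : Type} {S : Sys V St A} {a : Alg ar A}
    (h : ∀ s, Rel a a (S.E s)) (l : List St) : Rel a a (S.Rl l) := by
  induction l with
  | nil =>
    intro ω x y hxy
    show a ω x = a ω y
    congr 1
    funext i
    exact hxy i
  | cons s l ih =>
    intro ω x y hxy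
    choose c hc using hxy
    exact ⟨a ω c, h s ω x c (fun i => (hc i).1), ih ω c y (fun i => (hc i).2)⟩

theorem afa (hM : S_afmain) : S_afa := by
  intro Ω ar u V St A Q _ _ C hC
  refine ⟨?_, fun x c hc => hc.1, ?_, ?_⟩
  · intro x
    obtain ⟨x1, hx1⟩ := hC.ok.ne x
    have key := hM Ω ar u V St A Q C hC (C.S.P x) Unit (subA C.a (C.S.P x) (hC.subP x))
      (fun _ _ => ()) (fun _ => ()) () Unit (fun _ ξ => ξ.1) (fun _ => x)
      (nice_sub _ _ hC.nice)
      ⟨fun _ _ => rfl, fun _ _ => ⟨rfl, rfl⟩⟩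
      (by
        intro D _ hD _
        obtain ⟨d, hd⟩ := hD
        apply Set.eq_univ_of_forall
        intro y
        exact hd)
      (fun _ _ => rfl)
      (fun _ => ⟨⟨x1, hx1⟩, rfl⟩)
      (fun _ _ _ => rfl)
      (fun _ ξ => ξ.2)
      (fun _ c hc => ⟨⟨c, hc⟩, rfl⟩)
      (by
        intro _ _
        refine ⟨[], rfl, ?_⟩
        intro c hc c' hcc
        have h1 : c = c' := hcc
        exact ⟨⟨c, hc⟩, rfl, h1⟩)
      (by
        intro _ π hπ h hh
        exfalso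
        have h1 : ∀ a ∈ C.S.P C.x0, C.h0 a = h () := by
          intro a ha
          obtain ⟨c, hc, hac⟩ := C.S.rl_ext hC.ok π C.x0 x hπ.1 a ha
          exact hh ⟨c, hc⟩ a ha hac
        obtain ⟨z, z', hz⟩ := hC.two
        obtain ⟨c, hc, hc'⟩ := hC.sur z
        obtain ⟨d, hd, hd'⟩ := hC.sur z'
        apply hz
        rw [← hc', ← hd', h1 c hc, h1 d hd])
    obtain ⟨ξ, -, hξ⟩ := key
    exact ⟨ξ.1, hξ ()⟩
  · intro heq
    have hr : C.Rigid [] C.x0 := by
      refine ⟨rfl, ?_⟩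
      intro a _ a' _ c h1 h2
      have h3 : a = c := h1
      have h4 : a' = c := h2
      rw [h3, h4]
    have h1 : ∀ c ∈ C.S.P C.x0, C.h0 c = C.B := by
      intro c hc
      have h2 : c ∈ C.P' C.x0 := by rw [heq]; exact hc
      exact h2.2 [] hr c hc rfl
    obtain ⟨z, z', hz⟩ := hC.two
    obtain ⟨c, hc, hc'⟩ := hC.sur z
    obtain ⟨d, hd, hd'⟩ := hC.sur z'
    apply hz
    rw [← hc', ← hd', h1 c hc, h1 d hd]
  · intro x ω c hc
    refine ⟨hC.subP x ω c (fun i => (hc i).1), ?_⟩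
    intro π hπ a ha hac
    have h1 : ∀ i, ∃ b ∈ C.S.P C.x0, C.S.Rl π b (c i) := by
      intro i
      obtain ⟨b, hb, hb'⟩ := C.S.rl_ext hC.ok (C.S.rv π) x C.x0
        (C.S.isPath_rv hC.ok π C.x0 x hπ.1) (c i) (hc i).1
      exact ⟨b, hb, (C.S.rl_rv hC.ok π b (c i)).1 hb'⟩
    choose b hb hb' using h1
    have h2 : ∀ i, C.h0 (b i) = C.B := fun i => (hc i).2 π hπ (b i) (hb i) (hb' i)
    have h3 : C.S.Rl π (C.a ω b) (C.a ω c) := rl_rel hC.relE π ω b c hb'
    have h4 : C.a ω b ∈ C.S.P C.x0 := hC.subP C.x0 ω b hb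
    rw [hπ.2 a ha (C.a ω b) h4 (C.a ω c) hac h3, hC.hom ω b hb]
    have h5 : (fun i => C.h0 (b i)) = fun _ => C.B := by
      funext i
      exact h2 i
    rw [h5]
    exact hC.niceq.1 ω C.B

end Pool.Agent.W721.BWAFA
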