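import Pool.Agent.W434.BW.StmB

/-!
Project BW (helper434): large powers of a closed path (S_pr).
-/

set_option autoImplicit false

namespace Pool.Agent.W721.BWPR

open Pool.Agent.W434.BW

theorem pr : S_pr := by
  intro V St A _ S hS hQ x c hc
  -- reflexivity
  have h1 : ∃ N1, ∀ n, N1 ≤ n → ∀ a ∈ S.P x, S.Rl (rep n c) a a := by
    have hsrc := hS.src_id x
    have htgt := hS.tgt_id x
    obtain ⟨N, hN⟩ := hQ (S.idst x) c [] (by rw [hsrc, htgt]; exact hc)
      (by rw [hsrc, htgt]; rfl)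
    refine ⟨N + 1, fun n hn a ha => ?_⟩
    obtain ⟨k, rfl⟩ : ∃ k, n = k + 1 := ⟨n - 1, by omega⟩
    have h2 := hN k (by omega) a a ((hS.id_E x a a).2 ⟨rfl, ha⟩)
    rw [List.nil_append, ← rep_succ] at h2
    exact h2
  obtain ⟨N1, hN1⟩ := h1
  -- bounded exponents
  have h2 : ∃ M, ∀ a b, (∃ m, S.Rl (rep m c) a b) → ∃ m, m ≤ M ∧ S.Rl (rep m c) a b := by
    classical
    have h3 : ∀ p : A × A, ∃ m0, (∃ m, S.Rl (rep m c) p.1 p.2) → S.Rl (rep m0 c) p.1 p.2 := by
      intro p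
      by_cases h : ∃ m, S.Rl (rep m c) p.1 p.2
      · obtain ⟨m, hm⟩ := h
        exact ⟨m, fun _ => hm⟩
      · exact ⟨0, fun h' => absurd h' h⟩
    choose f hf using h3
    obtain ⟨M, hM⟩ := (Set.finite_range f).bddAbove
    exact ⟨M, fun a b h => ⟨f (a, b), hM ⟨(a, b), rfl⟩, hf (a, b) h⟩⟩
  obtain ⟨M, hM⟩ := h2
  have item4 : ∀ n, N1 + M ≤ n → ∀ m, ∀ a ∈ S.P x, ∀ b, S.Rl (rep m c) a b →
      S.Rl (rep n c) a b := by
    intro n hn m a ha b hab
    obtain ⟨m0, hm0, h0⟩ := hM a b ⟨m, hab⟩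
    obtain ⟨k, rfl⟩ : ∃ k, n = m0 + k := ⟨n - m0, by omega⟩
    rw [rep_add, S.rl_append]
    refine ⟨b, h0, hN1 k (by omega) b ?_⟩
    exact S.rl_dom hS (rep m0 c) x x (S.isPath_rep c x hc m0) a b ha h0
  -- one step backwards
  have back : ∀ (a b : A), a ∈ S.P x → ∀ (l2 l1 : List St) (d : A), c = l1 ++ l2 →
      S.Rl l1 a d → S.Rl l2 d b → ∃ n, S.Rl (rep n c ++ l1) b d := by
    intro a b ha l2
    induction l2 with
    | nil =>
      intro l1 d hl h3 h4
      have h5 : d = b := h4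
      subst h5
      rw [List.append_nil] at hl
      subst hl
      refine ⟨N1, ?_⟩
      rw [← rep_succ']
      exact hN1 (N1 + 1) (by omega) d (S.rl_dom hS c x x hc a d ha h3)
    | cons s l2 ih =>
      intro l1 d hl h3 h4
      obtain ⟨d', h5, h6⟩ := h4
      have hl' : c = (l1 ++ [s]) ++ l2 := by rw [hl]; simp
      obtain ⟨n, hn⟩ := ih (l1 ++ [s]) d' hl' (by
        rw [S.rl_append]
        exact ⟨d, h3, d', h5, rfl⟩) h6
      have hp : ∃ y, S.IsPath l1 x y ∧ S.IsPath (s :: l2) y x := by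
        rw [← S.isPath_append, ← hl]; exact hc
      obtain ⟨y, hp1, hp2, hp3⟩ := hp
      obtain ⟨N, hN⟩ := hQ (S.rev s) (l2 ++ l1) [s]
        (by
          rw [hS.src_rev, hS.tgt_rev, S.isPath_append]
          exact ⟨x, hp3, by rw [hp2]; exact hp1⟩)
        (by
          rw [hS.src_rev, hS.tgt_rev]
          exact ⟨rfl, rfl⟩)
      have h7 := hN N le_rfl d' d ((hS.rev_E s d d').2 h5)
      refine ⟨n + (1 + N), ?_⟩
      have e1 : rep (n + (1 + N)) c ++ l1 =
          (rep n c ++ (l1 ++ [s])) ++ ((l2 ++ l1) ++ rep N ([s] ++ (l2 ++ l1))) := by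
        have e2 : l1 ++ rep N ([s] ++ (l2 ++ l1)) = rep N c ++ l1 := by
          have := rep_shift l1 ([s] ++ l2) N
          have e3 : l1 ++ ([s] ++ l2) = c := by rw [hl]; simp
          rw [e3] at this
          rw [← this, List.append_assoc]
        rw [rep_add, rep_add]
        have e4 : rep 1 c = c := by rw [show (1 : ℕ) = 0 + 1 by rfl, rep_succ, rep_zero]; simp
        rw [e4]
        have e5 : (rep n c ++ (l1 ++ [s])) ++ ((l2 ++ l1) ++ rep N ([s] ++ (l2 ++ l1))) =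
            rep n c ++ (((l1 ++ [s]) ++ l2) ++ (l1 ++ rep N ([s] ++ (l2 ++ l1)))) := by
          simp [List.append_assoc]
        rw [e5, e2, ← hl']
        simp [List.append_assoc]
      rw [e1, S.rl_append]
      exact ⟨d', hn, h7⟩
  have back1 : ∀ a ∈ S.P x, ∀ b, S.Rl c a b → ∃ m, S.Rl (rep m c) b a := by
    intro a ha b hab
    obtain ⟨n, hn⟩ := back a b ha c [] a rfl rfl hab
    rw [List.append_nil] at hn
    exact ⟨n, hn⟩
  have backn : ∀ n, ∀ a ∈ S.P x, ∀ b, S.Rl (rep n c) a b → ∃ m, S.Rl (rep m c) b a := by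
    intro n
    induction n with
    | zero =>
      intro a ha b hab
      have h3 : a = b := hab
      subst h3
      exact ⟨0, rfl⟩
    | succ n ih =>
      intro a ha b hab
      rw [rep_succ, S.rl_append] at hab
      obtain ⟨d, h3, h4⟩ := hab
      have hd := S.rl_dom hS c x x hc a d ha h3
      obtain ⟨m, hm⟩ := ih d hd b h4
      obtain ⟨m', hm'⟩ := back1 a ha d h3
      refine ⟨m + m', ?_⟩
      rw [rep_add, S.rl_append]
      exact ⟨d, hm, hm'⟩
  refine ⟨N1 + M, fun n hn => ⟨fun a ha => hN1 n (by omega) a ha, ?_, ?_, ?_⟩⟩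
  · intro a ha b hab
    obtain ⟨m, hm⟩ := backn n a ha b hab
    exact item4 n hn m b (S.rl_dom hS (rep n c) x x (S.isPath_rep c x hc n) a b ha hab) a hm
  · intro a ha b d hab hbd
    apply item4 n hn (n + n) a ha d
    rw [rep_add, S.rl_append]
    exact ⟨b, hab, hbd⟩
  · intro m a ha b hab
    exact item4 n hn m a ha b hab

end Pool.Agent.W721.BWPR
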